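import Pool.Agent.Helper49.RU.St

/-!
Project RU (MP_a60174_an), module FUN: functionals given by limits along the ultrafilter.
-/

set_option autoImplicit false

namespace Pool.Agent.Helper21.RU

open Pool.Agent.Helper49.RU
open MeasureTheory Filter Topology Complex
open scoped ENNReal Cardinal ComplexConjugate

theorem exlim (U : Ultrafilter ℕ) (a : ℕ → ℝ) (M : ℝ) (h : ∀ n, |a n| ≤ M) :
    ∃ l, Tendsto a (U : Filter ℕ) (𝓝 l) := by
  have hc : IsCompact (Set.Icc (-M) M) := isCompact_Icc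
  have h1 : ((U.map a : Ultrafilter ℝ) : Filter ℝ) ≤ 𝓟 (Set.Icc (-M) M) := by
    rw [Filter.le_principal_iff]
    change a ⁻¹' (Set.Icc (-M) M) ∈ (U : Filter ℕ)
    filter_upwards with n
    exact abs_le.1 (h n)
  obtain ⟨l, -, hl⟩ := hc.ultrafilter_le_nhds _ h1
  exact ⟨l, hl⟩

theorem hFUN : StFUN := by
  intro U X _ _ ψ C hC
  have hC0 : 0 ≤ C := (norm_nonneg _).trans (hC 0)
  have hb : ∀ (f : BS X) (n : ℕ), |ψ n (f n)| ≤ C * ‖f n‖ := by
    intro f n
    have h1 := (ψ n).le_opNorm (f n)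
    rw [Real.norm_eq_abs] at h1
    exact h1.trans (mul_le_mul_of_nonneg_right (hC n) (norm_nonneg _))
  have hb2 : ∀ (f : BS X) (n : ℕ), |ψ n (f n)| ≤ C * ‖f‖ := by
    intro f n
    exact (hb f n).trans (mul_le_mul_of_nonneg_left (lp.norm_apply_le_norm (by simp) f n) hC0)
  have hex : ∀ f : BS X, ∃ l, Tendsto (fun n => ψ n (f n)) (U : Filter ℕ) (𝓝 l) := fun f =>
    exlim U _ (C * ‖f‖) (hb2 f)
  choose L hL using hex
  let Ll : BS X →ₗ[ℝ] ℝ :=
    { toFun := L
      map_add' := by
        intro f g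
        refine tendsto_nhds_unique (hL (f + g)) ?_
        refine ((hL f).add (hL g)).congr (fun n => ?_)
        rw [lp.coeFn_add, Pi.add_apply, map_add]
      map_smul' := by
        intro c f
        refine tendsto_nhds_unique (hL (c • f)) ?_
        refine ((hL f).const_mul c).congr (fun n => ?_)
        rw [lp.coeFn_smul, Pi.smul_apply, map_smul, smul_eq_mul] }
  have hLb : ∀ f : BS X, ‖Ll f‖ ≤ C * ‖f‖ := by
    intro f
    have h1 : Tendsto (fun n => |ψ n (f n)|) (U : Filter ℕ) (𝓝 |L f|) := (hL f).abs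
    exact le_of_tendsto h1 (Eventually.of_forall (hb2 f))
  let Lc : BS X →L[ℝ] ℝ := Ll.mkContinuous C hLb
  have hker : nullU U X ≤ LinearMap.ker (Lc : BS X →ₗ[ℝ] ℝ) := by
    intro f hf
    rw [LinearMap.mem_ker]
    change L f = 0
    rw [mem_nullU] at hf
    have h0 : Tendsto (fun n => ψ n (f n)) (U : Filter ℕ) (𝓝 0) := by
      have h2 := hf.const_mul C
      rw [mul_zero] at h2
      exact squeeze_zero_norm (fun n => by
        rw [Real.norm_eq_abs]
        exact hb f n) h2
    exact tendsto_nhds_unique (hL f) h0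
  refine ⟨(nullU U X).liftQL Lc hker, ?_⟩
  intro f
  exact hL f

end Pool.Agent.Helper21.RU
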